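import Pool.Agent.H482R3.EA.Stm

set_option autoImplicit false

/-! Project EA (helper482): final theorem. -/

namespace Pool.Agent.H131R.EA

open Pool.Agent.H482R3.EA

theorem alt_prod {B G : Type} [Group G] (f : B → G) (i j : B) (k : ℕ) :
    ((CoxeterSystem.alternatingWord i j (2 * k)).map f).prod = (f i * f j) ^ k := by
  induction k with
  | zero => simp [CoxeterSystem.alternatingWord]
  | succ k ih =>
    have h : CoxeterSystem.alternatingWord i j (2 * (k + 1)) =
        ((CoxeterSystem.alternatingWord i j (2 * k)).concat i).concat j := rfl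
    rw [h, List.concat_eq_append, List.concat_eq_append, List.map_append, List.map_append,
      List.prod_append, List.prod_append, ih, pow_succ]
    simp [mul_assoc]

theorem map_ev {S G H : Type} [Group G] [Group H] (φ : G →* H) (f : S → G) (u : W S) :
    φ (ev f u) = ev (fun s => φ (f s)) u := by
  unfold ev
  rw [map_list_prod, List.map_map]
  congr 1
  apply List.map_congr_left
  intro a _
  simp only [Function.comp]
  split_ifs
  · rfl
  · rw [map_inv]

theorem t_FINAL (hM : S_MAIN) (hL : S_LIFT) : S_FINAL := by
  intro n M heven hP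
  set c : Fin n → Fin n → ℕ := fun i j => if i = j then 0 else M i j / 2 with hc
  have hMc : ∀ i j, i ≠ j → M i j = 2 * c i j := by
    intro i j hij
    obtain ⟨k, hk⟩ := heven i j hij
    simp only [hc, if_neg hij]
    omega
  have hsymm : Symm c := by
    intro s t
    simp only [hc]
    by_cases h : s = t
    · rw [if_pos h, if_pos h.symm]
    · rw [if_neg h, if_neg (Ne.symm h), M.symmetric s t]
  have hfree : P4free (fun s t => s ≠ t ∧ c s t = 1) := by
    rintro ⟨x, y, z, t, hxz, hxt, hyt, hxy, hyz, hzt, h1, h2, h3⟩
    apply hP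
    refine ⟨x, y, z, t, ?_, ?_, ?_, ?_, ?_, ?_, hxz, hxt, hyt⟩
    · rw [hMc x y hxy.1, hxy.2]
    · rw [hMc y z hyz.1, hyz.2]
    · rw [hMc z t hzt.1, hzt.2]
    · intro h
      apply h1
      have := hMc x z hxz
      exact ⟨hxz, by omega⟩
    · intro h
      apply h2
      have := hMc x t hxt
      exact ⟨hxt, by omega⟩
    · intro h
      apply h3
      have := hMc y t hyt
      exact ⟨hyt, by omega⟩
  have hmain := hM n c hsymm hfree
  have hrelA : ∀ s t : Fin n, s ≠ t → c s t ≠ 0 →
      ((PresentedGroup.of s : ArtinG n M) * PresentedGroup.of t) ^ (c s t) =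
        ((PresentedGroup.of t : ArtinG n M) * PresentedGroup.of s) ^ (c s t) := by
    intro s t hst hcst
    have hmem : ((CoxeterSystem.alternatingWord s t (M s t)).map FreeGroup.of).prod *
        (((CoxeterSystem.alternatingWord t s (M s t)).map FreeGroup.of).prod)⁻¹ ∈
        {r : FreeGroup (Fin n) | ∃ i j : Fin n, M i j ≠ 0 ∧
          r = ((CoxeterSystem.alternatingWord i j (M i j)).map FreeGroup.of).prod *
            (((CoxeterSystem.alternatingWord j i (M i j)).map FreeGroup.of).prod)⁻¹} := by
      refine ⟨s, t, ?_, rfl⟩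
      rw [hMc s t hst]
      omega
    have h := PresentedGroup.one_of_mem hmem
    rw [map_mul, map_inv, mul_inv_eq_one, hMc s t hst, alt_prod, alt_prod, map_pow, map_pow,
      map_mul, map_mul] at h
    exact h
  obtain ⟨φ, -, hφ⟩ := hL (Fin n) (ArtinG n M) inferInstance c
    (fun s => PresentedGroup.of s) hrelA
  have hrelE : ∀ r ∈ {r : FreeGroup (Fin n) | ∃ i j : Fin n, M i j ≠ 0 ∧
          r = ((CoxeterSystem.alternatingWord i j (M i j)).map FreeGroup.of).prod *
            (((CoxeterSystem.alternatingWord j i (M i j)).map FreeGroup.of).prod)⁻¹},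
      FreeGroup.lift (gen c) r = 1 := by
    rintro r ⟨i, j, hij0, rfl⟩
    by_cases hij : i = j
    · subst hij
      rw [mul_inv_cancel, map_one]
    · rw [hMc i j hij, alt_prod, alt_prod, map_mul, map_inv, mul_inv_eq_one, map_pow, map_pow,
        map_mul, map_mul, FreeGroup.lift_apply_of, FreeGroup.lift_apply_of]
      have hcij : c i j ≠ 0 := by
        intro h
        apply hij0
        rw [hMc i j hij, h]
      have hmem : (FreeGroup.of i * FreeGroup.of j) ^ (c i j) *
          ((FreeGroup.of j * FreeGroup.of i) ^ (c i j))⁻¹ ∈ rels c := ⟨i, j, hij, hcij, rfl⟩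
      have h := PresentedGroup.one_of_mem hmem
      rw [map_mul, map_inv, mul_inv_eq_one, map_pow, map_pow, map_mul, map_mul] at h
      exact h
  set ψ : ArtinG n M →* EA c := PresentedGroup.toGroup hrelE with hψ
  have hψof : ∀ s, ψ (PresentedGroup.of s) = gen c s := fun s => PresentedGroup.toGroup.of hrelE
  have hpred : (fun u : List (Fin n × Bool) =>
      (u.map (fun a => if a.2 then (PresentedGroup.of a.1 : ArtinG n M)
        else (PresentedGroup.of a.1)⁻¹)).prod = 1) = Triv c := by
    funext u
    apply propext
    unfold Triv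
    constructor
    · intro h
      have h1 : ev (fun s => (PresentedGroup.of s : ArtinG n M)) u = 1 := h
      have h2 := congrArg ψ h1
      rw [map_ev, map_one] at h2
      simp only [hψof] at h2
      exact h2
    · intro h
      have h1 := congrArg φ h
      rw [hφ, map_one] at h1
      exact h1
  rw [hpred]
  exact hmain

end Pool.Agent.H131R.EA
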